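import Mathlib

/-!
# A local criterion for factoriality (two-dimensional regular local rings)
-/

namespace Pool.Agent.Lib_helper62.PJ

open IsLocalRing

/-- A Noetherian local domain with a nonzero element `a` of the maximal ideal, such that the maximal
ideal is `(a, b)` with `b` a nonzerodivisor modulo `a`, is factorial. -/
theorem ufd_of_local {O : Type} [CommRing O] [IsDomain O] [IsNoetherianRing O] [IsLocalRing O]
    (a b : O) (ha0 : a ≠ 0) (ha : a ∈ maximalIdeal O) (hb : b ∈ maximalIdeal O)
    (hgen : maximalIdeal O ≤ Ideal.span {a, b})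
    (hreg : ∀ x, b * x ∈ Ideal.span {a} → x ∈ Ideal.span {a}) :
    UniqueFactorizationMonoid O := by
  have hMtop : maximalIdeal O ≠ ⊤ := Ideal.IsPrime.ne_top (maximalIdeal.isMaximal O).isPrime
  have haM : (Ideal.span {a} : Ideal O) ≤ maximalIdeal O := (Ideal.span_singleton_le_iff_mem _).2 ha
  have hatop : (Ideal.span {a} : Ideal O) ≠ ⊤ := fun h => hMtop (top_le_iff.1 (h ▸ haM))
  -- powers of `b`
  have hregn : ∀ n x, b ^ n * x ∈ Ideal.span {a} → x ∈ Ideal.span {a} := by
    intro n
    induction n with
    | zero => intro x hx; simpa using hx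
    | succ n ih => intro x hx; rw [pow_succ, mul_assoc] at hx; exact hreg _ (ih _ hx)
  -- structure of elements modulo `a`
  have hstr : ∀ x, x ∉ Ideal.span {a} → ∃ (n : ℕ) (u y : O), IsUnit u ∧ x = u * b ^ n + a * y := by
    let B := O ⧸ (Ideal.span {a} : Ideal O)
    have : Nontrivial B := Ideal.Quotient.nontrivial_iff.2 hatop
    have : IsLocalRing B := IsLocalRing.of_surjective' (Ideal.Quotient.mk _) Ideal.Quotient.mk_surjective
    intro x hx
    by_contra hcon
    push Not at hcon
    have hall : ∀ n, ∃ c y, x = c * b ^ n + a * y := by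
      intro n
      induction n with
      | zero => exact ⟨x, 0, by ring⟩
      | succ n ih =>
        obtain ⟨c, y, hcy⟩ := ih
        have hc : ¬ IsUnit c := fun hu => hcon n c y hu hcy
        have hc' : c ∈ Ideal.span {a, b} := hgen ((mem_maximalIdeal c).2 hc)
        obtain ⟨p, q, hpq⟩ := Ideal.mem_span_pair.1 hc'
        refine ⟨q, y + p * b ^ n, ?_⟩
        rw [hcy, ← hpq]; ring
    have hbot := Ideal.iInf_pow_eq_bot_of_isLocalRing (R := B) (maximalIdeal B)
      (Ideal.IsPrime.ne_top (maximalIdeal.isMaximal B).isPrime)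
    have hb' : Ideal.Quotient.mk (Ideal.span {a}) b ∈ maximalIdeal B := by
      rw [mem_maximalIdeal, mem_nonunits_iff]
      intro hu
      obtain ⟨c', hc'⟩ := hu.exists_right_inv
      obtain ⟨c, rfl⟩ := Ideal.Quotient.mk_surjective c'
      rw [← map_mul, ← map_one (Ideal.Quotient.mk _), Ideal.Quotient.eq] at hc'
      have h3 : (1 : O) ∈ maximalIdeal O := by
        have h4 := sub_mem (Ideal.mul_mem_right c _ hb) (haM hc')
        rw [sub_sub_cancel] at h4; exact h4
      exact (Ideal.ne_top_iff_one _).1 hMtop h3
    have hmem : Ideal.Quotient.mk (Ideal.span {a}) x ∈ (⨅ i : ℕ, maximalIdeal B ^ i : Ideal B) := by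
      rw [Ideal.mem_iInf]
      intro n
      obtain ⟨c, y, hcy⟩ := hall n
      rw [hcy, map_add, map_mul, map_mul, map_pow]
      have : Ideal.Quotient.mk (Ideal.span {a}) a = 0 :=
        Ideal.Quotient.eq_zero_iff_mem.2 (Ideal.mem_span_singleton_self a)
      rw [this, zero_mul, add_zero]
      exact Ideal.mul_mem_left _ _ (Ideal.pow_mem_pow hb' n)
    rw [hbot, Ideal.mem_bot, Ideal.Quotient.eq_zero_iff_mem] at hmem
    exact hx hmem
  -- `a` is prime
  have hprime : Prime a := by
    refine ⟨ha0, fun hu => hMtop (Ideal.eq_top_of_isUnit_mem _ ha hu), ?_⟩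
    intro x y hxy
    by_contra hcon
    push Not at hcon
    obtain ⟨hx, hy⟩ := hcon
    rw [← Ideal.mem_span_singleton] at hx hy hxy
    obtain ⟨n, u, x', hu, rfl⟩ := hstr x hx
    obtain ⟨m, v, y', hv, rfl⟩ := hstr y hy
    have h1 : b ^ (n + m) * (u * v) ∈ Ideal.span {a} := by
      have e : b ^ (n + m) * (u * v) = (u * b ^ n + a * x') * (v * b ^ m + a * y') -
          a * (x' * (v * b ^ m + a * y') + u * b ^ n * y') := by ring
      rw [e]
      exact sub_mem hxy (Ideal.mul_mem_right _ _ (Ideal.mem_span_singleton_self a))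
    have h2 := hregn _ _ h1
    exact hatop (Ideal.eq_top_of_isUnit_mem _ h2 (hu.mul hv))
  -- Kaplansky
  rw [UniqueFactorizationMonoid.iff_exists_prime_mem_of_isPrime]
  intro q hq0 hq
  by_cases haq : a ∈ q
  · exact ⟨a, haq, hprime⟩
  -- an element of `q` not in `(a)`
  have hex : ∃ n : ℕ, ∃ x ∈ q, ∃ u y : O, IsUnit u ∧ x = u * b ^ n + a * y := by
    by_contra hcon
    push Not at hcon
    have hle : q ≤ (Ideal.span {a} : Ideal O) * q := by
      intro x hx
      have hxa : x ∈ Ideal.span {a} := by
        by_contra hxa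
        obtain ⟨n, u, y, hu, he⟩ := hstr x hxa
        exact hcon n x hx u y hu he
      obtain ⟨y, rfl⟩ := Ideal.mem_span_singleton'.1 hxa
      have hy : y ∈ q := (hq.mem_or_mem hx).resolve_right haq
      rw [mul_comm y a]
      exact Ideal.mul_mem_mul (Ideal.mem_span_singleton_self a) hy
    apply hq0
    apply Submodule.eq_bot_of_le_smul_of_le_jacobson_bot (Ideal.span {a}) q (IsNoetherian.noetherian q) hle
    rw [IsLocalRing.jacobson_eq_maximalIdeal ⊥ bot_ne_top]
    exact haM
  classical
  obtain ⟨x, hxq, u, y, hu, hx⟩ := Nat.find_spec hex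
  set n := Nat.find hex with hn
  have hle : q ≤ Ideal.span {x} ⊔ (Ideal.span {a} : Ideal O) • q := by
    intro z hz
    -- `z ≡ c b ^ n` modulo `a`
    have hz' : ∃ c d, z = c * b ^ n + a * d := by
      by_cases hza : z ∈ Ideal.span {a}
      · obtain ⟨d, rfl⟩ := Ideal.mem_span_singleton'.1 hza
        exact ⟨0, d, by ring⟩
      · obtain ⟨m, v, d, hv, he⟩ := hstr z hza
        have hnm : n ≤ m := Nat.find_min' hex ⟨z, hz, v, d, hv, he⟩
        refine ⟨v * b ^ (m - n), d, ?_⟩
        rw [he, mul_assoc, ← pow_add, Nat.sub_add_cancel hnm]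
    obtain ⟨c, d, he⟩ := hz'
    obtain ⟨u', hu'⟩ := hu.exists_left_inv
    have h1 : z - x * (u' * c) ∈ Ideal.span {a} := by
      rw [he, hx]
      have : c * b ^ n + a * d - (u * b ^ n + a * y) * (u' * c) =
          a * (d - y * (u' * c)) + c * b ^ n * (1 - u' * u) := by ring
      rw [this, hu', sub_self, mul_zero, add_zero]
      exact Ideal.mul_mem_right _ _ (Ideal.mem_span_singleton_self a)
    obtain ⟨w, hw⟩ := Ideal.mem_span_singleton'.1 h1
    have hwq : w ∈ q := by
      have : w * a ∈ q := by
        rw [hw]; exact sub_mem hz (Ideal.mul_mem_right _ _ hxq)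
      exact (hq.mem_or_mem this).resolve_right haq
    have : z = x * (u' * c) + a * w := by rw [mul_comm a w, hw]; ring
    rw [this]
    exact Submodule.add_mem_sup (Ideal.mul_mem_right _ _ (Ideal.mem_span_singleton_self x))
      (by rw [smul_eq_mul]; exact Ideal.mul_mem_mul (Ideal.mem_span_singleton_self a) hwq)
  have hqx : q ≤ Ideal.span {x} := by
    apply Submodule.le_of_le_smul_of_le_jacobson_bot (IsNoetherian.noetherian q) _ hle
    rw [IsLocalRing.jacobson_eq_maximalIdeal ⊥ bot_ne_top]
    exact haM
  have hqe : q = Ideal.span {x} := le_antisymm hqx ((Ideal.span_singleton_le_iff_mem _).2 hxq)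
  have hx0 : x ≠ 0 := by
    rintro rfl
    apply hq0; rw [hqe]; simp
  exact ⟨x, hxq, (Ideal.span_singleton_prime hx0).1 (hqe ▸ hq)⟩

/-- The same for the localization of a Noetherian domain at a prime ideal. -/
theorem ufd_atPrime {A : Type} [CommRing A] [IsDomain A] [IsNoetherianRing A] (P : Ideal A)
    [P.IsPrime] (a b : A) (ha0 : a ≠ 0) (ha : a ∈ P) (hb : b ∈ P)
    (hgen : ∃ s, s ∉ P ∧ ∀ x ∈ P, s * x ∈ Ideal.span {a, b})
    (hreg : ∀ x, b * x ∈ Ideal.span {a} → x ∈ Ideal.span {a}) :
    UniqueFactorizationMonoid (Localization.AtPrime P) := by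
  have hinj : Function.Injective (algebraMap A (Localization.AtPrime P)) :=
    IsLocalization.injective _ P.primeCompl_le_nonZeroDivisors
  have : IsNoetherianRing (Localization.AtPrime P) :=
    IsLocalization.isNoetherianRing P.primeCompl _ inferInstance
  have hmem : ∀ x, x ∈ P → algebraMap A (Localization.AtPrime P) x ∈
      maximalIdeal (Localization.AtPrime P) := by
    intro x hx
    exact (IsLocalization.AtPrime.to_map_mem_maximal_iff _ P x).2 hx
  apply ufd_of_local (algebraMap A _ a) (algebraMap A _ b)
  · rw [Ne, map_eq_zero_iff _ hinj]; exact ha0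
  · exact hmem a ha
  · exact hmem b hb
  · intro y hy
    obtain ⟨s, hs, hgen⟩ := hgen
    obtain ⟨x, t, rfl⟩ := IsLocalization.exists_mk'_eq P.primeCompl y
    have hx : x ∈ P :=
      (IsLocalization.AtPrime.mk'_mem_maximal_iff (Localization.AtPrime P) P x t).1 hy
    have h1 := hgen x hx
    obtain ⟨p, q, hpq⟩ := Ideal.mem_span_pair.1 h1
    have hsu : IsUnit (algebraMap A (Localization.AtPrime P) s) :=
      IsLocalization.map_units _ (⟨s, hs⟩ : P.primeCompl)
    obtain ⟨s', hs'⟩ := hsu.exists_left_inv
    have h2 : IsLocalization.mk' (Localization.AtPrime P) x t =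
        s' * (algebraMap A _ p * IsLocalization.mk' _ 1 t) * algebraMap A _ a +
        s' * (algebraMap A _ q * IsLocalization.mk' _ 1 t) * algebraMap A _ b := by
      have e1 : IsLocalization.mk' (Localization.AtPrime P) x t =
          algebraMap A _ x * IsLocalization.mk' _ 1 t := by
        rw [IsLocalization.mk'_eq_mul_mk'_one]
      have e2 : algebraMap A (Localization.AtPrime P) s * algebraMap A _ x =
          algebraMap A _ p * algebraMap A _ a + algebraMap A _ q * algebraMap A _ b := by
        rw [← map_mul, ← map_mul, ← map_mul, ← map_add, hpq]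
      rw [e1]
      calc _ = (s' * algebraMap A _ s) * algebraMap A _ x * IsLocalization.mk' _ 1 t := by
            rw [hs', one_mul]
        _ = s' * (algebraMap A _ s * algebraMap A _ x) * IsLocalization.mk' _ 1 t := by ring
        _ = _ := by rw [e2]; ring
    rw [h2]
    exact add_mem (Ideal.mul_mem_left _ _ (Ideal.subset_span (by simp)))
      (Ideal.mul_mem_left _ _ (Ideal.subset_span (by simp)))
  · intro y hy
    obtain ⟨x, t, rfl⟩ := IsLocalization.exists_mk'_eq P.primeCompl y
    obtain ⟨z, hz⟩ := Ideal.mem_span_singleton'.1 hy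
    obtain ⟨r, u, rfl⟩ := IsLocalization.exists_mk'_eq P.primeCompl z
    -- `b x / t = a r / u`
    have h1 : algebraMap A (Localization.AtPrime P) (b * ((u : A) * x)) =
        algebraMap A (Localization.AtPrime P) (r * (t : A) * a) := by
      have e1 : IsLocalization.mk' (Localization.AtPrime P) x t *
          algebraMap A (Localization.AtPrime P) (t : A) = algebraMap A _ x :=
        IsLocalization.mk'_spec _ x t
      have e2 : IsLocalization.mk' (Localization.AtPrime P) r u *
          algebraMap A (Localization.AtPrime P) (u : A) = algebraMap A _ r :=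
        IsLocalization.mk'_spec _ r u
      simp only [map_mul]
      rw [← e1, ← e2]
      linear_combination (-(algebraMap A (Localization.AtPrime P) (u : A) *
        algebraMap A (Localization.AtPrime P) (t : A))) * hz
    have h2 := hinj h1
    have h3 : (u : A) * x ∈ Ideal.span {a} := by
      apply hreg
      rw [h2]; exact Ideal.mul_mem_left _ _ (Ideal.mem_span_singleton_self a)
    obtain ⟨w, hw⟩ := Ideal.mem_span_singleton'.1 h3
    have hu : IsUnit (algebraMap A (Localization.AtPrime P) (u : A)) := IsLocalization.map_units _ u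
    have ht : IsUnit (algebraMap A (Localization.AtPrime P) (t : A)) := IsLocalization.map_units _ t
    obtain ⟨u', hu'⟩ := hu.exists_left_inv
    obtain ⟨t', ht'⟩ := ht.exists_left_inv
    have h4 : IsLocalization.mk' (Localization.AtPrime P) x t =
        (t' * u' * algebraMap A _ w) * algebraMap A _ a := by
      have e1 : IsLocalization.mk' (Localization.AtPrime P) x t *
          algebraMap A (Localization.AtPrime P) (t : A) = algebraMap A _ x :=
        IsLocalization.mk'_spec _ x t
      have e3 : algebraMap A (Localization.AtPrime P) w * algebraMap A _ a =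
          algebraMap A _ (u : A) * algebraMap A _ x := by
        rw [← map_mul, ← map_mul, hw]
      calc IsLocalization.mk' (Localization.AtPrime P) x t
          = (t' * algebraMap A _ (t : A)) * (u' * algebraMap A _ (u : A)) *
            IsLocalization.mk' (Localization.AtPrime P) x t := by rw [hu', ht']; ring
        _ = t' * u' * (algebraMap A _ (u : A) *
            (IsLocalization.mk' (Localization.AtPrime P) x t * algebraMap A _ (t : A))) := by ring
        _ = _ := by rw [e1, ← e3]; ring
    rw [h4]
    exact Ideal.mul_mem_left _ _ (Ideal.mem_span_singleton_self _)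

end Pool.Agent.Lib_helper62.PJ
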